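import Pool.Agent.Y184.RB.Base2
import Pool.Agent.H792R2.SS.MEAN
import Pool.Agent.H792R2.SS.MEANa

/-!
# Smooth functions with nonnegative Laplacian are submean (project RB, StSub2)
-/

set_option autoImplicit false

open Set Topology Filter
open scoped ContDiff Manifold

namespace Pool.Agent.Y79.RB

open Pool.Agent.Y184.RB

theorem lap_scale (h : ℂ → ℝ) (R : ℝ) (z : ℂ) :
    Laplacian.laplacian (fun ζ : ℂ => h (R • ζ)) z = R ^ 2 * Laplacian.laplacian h (R • z) := by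
  have h1 : fderiv ℝ (fun ζ : ℂ => h (R • ζ)) = fun x => R • fderiv ℝ h (R • x) := by
    funext x
    exact fderiv_comp_smul R
  have h3 : fderiv ℝ (fun x : ℂ => fderiv ℝ h (R • x)) z = R • fderiv ℝ (fderiv ℝ h) (R • z) :=
    fderiv_comp_smul R
  have h2 : fderiv ℝ (fun x : ℂ => R • fderiv ℝ h (R • x)) z =
      R • R • fderiv ℝ (fderiv ℝ h) (R • z) := by
    rw [← h3]
    exact congrFun (fderiv_const_smul_field (𝕜 := ℝ)
      (f := fun x : ℂ => fderiv ℝ h (R • x)) R) z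
  rw [InnerProductSpace.laplacian_eq_iteratedFDeriv_complexPlane,
    InnerProductSpace.laplacian_eq_iteratedFDeriv_complexPlane]
  simp only [iteratedFDeriv_two_apply, h1, h2, _root_.smul_apply, smul_eq_mul]
  ring

theorem lap_shift (h : ℂ → ℝ) (a : ℂ) :
    Laplacian.laplacian (fun ζ : ℂ => h (a + ζ)) 0 = Laplacian.laplacian h a := by
  rw [InnerProductSpace.laplacian_eq_iteratedFDeriv_complexPlane,
    InnerProductSpace.laplacian_eq_iteratedFDeriv_complexPlane]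
  simp only [iteratedFDeriv_comp_add_left, add_zero]

/-- the submean value property of smooth subharmonic functions -/
theorem mean_le {h : ℂ → ℝ} (hc : ∀ ζ : ℂ, ‖ζ‖ ≤ 1 → ContDiffAt ℝ 2 h ζ)
    (hl : ∀ ζ : ℂ, ‖ζ‖ ≤ 1 → 0 ≤ Laplacian.laplacian h ζ) :
    h 0 ≤ Real.circleAverage h 0 1 := by
  have hopen : IsOpen {ζ : ℂ | ContDiffAt ℝ 2 h ζ} := by
    rw [isOpen_iff_mem_nhds]
    intro ζ hζ
    exact ContDiffAt.eventually hζ (by simp)
  obtain ⟨ε, hε, hsub⟩ := (isCompact_closedBall (0 : ℂ) 1).exists_thickening_subset_open hopen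
    (fun ζ hζ => hc ζ (by simpa using hζ))
  rw [thickening_closedBall hε zero_le_one] at hsub
  set R : ℝ := ε + 1 with hRd
  have hR : 1 < R := by linarith
  have hR0 : 0 < R := by linarith
  set g : ℂ → ℝ := fun ζ => h (R • ζ) with hgd
  have hg : ContDiffOn ℝ 2 g (Metric.ball 0 1) := by
    intro ζ hζ
    apply ContDiffAt.contDiffWithinAt
    have h1 : ContDiffAt ℝ 2 h (R • ζ) := by
      apply hsub
      rw [mem_ball_zero_iff] at *
      rw [norm_smul, Real.norm_of_nonneg hR0.le]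
      nlinarith
    exact h1.comp ζ (by fun_prop)
  have hf := Pool.Agent.H792R2.SS.MEANx.ftc Pool.Agent.H792R2.SS.t_MEANa g R⁻¹ hg
    (by positivity) (inv_lt_one_of_one_lt₀ hR)
  have e1 : Real.circleAverage g 0 R⁻¹ = Real.circleAverage h 0 1 := by
    unfold Real.circleAverage
    congr 1
    apply intervalIntegral.integral_congr
    intro θ _
    simp only [hgd]
    congr 1
    simp only [circleMap, zero_add, Complex.real_smul]
    push_cast
    have : (R : ℂ) ≠ 0 := by exact_mod_cast hR0.ne'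
    field_simp
  have e2 : g 0 = h 0 := by simp [hgd]
  have e3 : 0 ≤ ∫ t in (0 : ℝ)..R⁻¹, t * Real.log (R⁻¹ / t) *
      Real.circleAverage (Pool.Agent.H792R2.SS.Lap g) 0 t := by
    apply intervalIntegral.integral_nonneg (by positivity)
    intro t ht
    rcases eq_or_lt_of_le ht.1 with h0 | h0
    · rw [← h0]; simp
    · have h1 : 1 ≤ R⁻¹ / t := by
        rw [le_div_iff₀ h0, one_mul]; exact ht.2
      refine mul_nonneg (mul_nonneg h0.le (Real.log_nonneg h1)) ?_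
      apply Real.circleAverage_nonneg_of_nonneg
      intro z hz
      rw [mem_sphere_zero_iff_norm, abs_of_pos h0] at hz
      unfold Pool.Agent.H792R2.SS.Lap
      rw [hgd, lap_scale]
      apply mul_nonneg (by positivity)
      apply hl
      rw [norm_smul, Real.norm_of_nonneg hR0.le, hz]
      calc R * t ≤ R * R⁻¹ := mul_le_mul_of_nonneg_left ht.2 hR0.le
        _ = 1 := mul_inv_cancel₀ hR0.ne'
  rw [e1, e2] at hf
  linarith

section

variable {n : ℕ} {Y : Type} [TopologicalSpace Y] [ChartedSpace (En n) Y]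

theorem disc_real {f : ℂ → Y} {ζ : ℂ} (h : ContMDiffAt 𝓘(ℂ, ℂ) 𝓘(ℂ, En n) ω f ζ) :
    ContMDiffAt 𝓘(ℝ, ℂ) 𝓘(ℝ, En n) ∞ f ζ := by
  rw [contMDiffAt_iff] at h ⊢
  refine ⟨h.1, ?_⟩
  have h2 := (h.2.restrict_scalars ℝ).of_le (le_top : (∞ : ℕ∞ω) ≤ ω)
  exact h2

theorem comp_real {f : ℂ → Y} {ζ : ℂ} (h : ContMDiffAt 𝓘(ℂ, ℂ) 𝓘(ℂ, En n) ω f ζ) {u : Y → ℝ}
    (hu : ContMDiffAt 𝓘(ℝ, En n) 𝓘(ℝ, ℝ) ∞ u (f ζ)) :
    ContDiffAt ℝ 2 (fun ζ => u (f ζ)) ζ := by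
  have h1 : ContMDiffAt 𝓘(ℝ, ℂ) 𝓘(ℝ, ℝ) ∞ (u ∘ f) ζ := hu.comp ζ (disc_real h)
  rw [contMDiffAt_iff_contDiffAt] at h1
  exact h1.of_le (WithTop.coe_le_coe.2 (le_top : (2 : ℕ∞) ≤ ⊤))

theorem disc_shift {f : ℂ → Y} {ζ : ℂ} (h : ContMDiffAt 𝓘(ℂ, ℂ) 𝓘(ℂ, En n) ω f ζ) :
    IsDisc n (fun ξ => f (ζ + ξ)) := by
  unfold IsDisc
  have h1 : ContMDiffAt 𝓘(ℂ, ℂ) 𝓘(ℂ, ℂ) ω (fun ξ : ℂ => ζ + ξ) 0 :=
    (contDiffAt_const.add contDiffAt_id).contMDiffAt
  exact ContMDiffAt.comp_of_eq (g := f) h h1 (by simp)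

end

theorem t : StSub2 := by
  intro n Y _ _ hY Ω θ ψ δ p hSM
  refine ⟨{q | ContMDiffAt 𝓘(ℝ, En n) 𝓘(ℝ, ℝ) ∞ (θ.pot p) q ∧
    ContMDiffAt 𝓘(ℝ, En n) 𝓘(ℝ, ℝ) ∞ (Ω.pot p) q ∧
    (∀ f : ℂ → Y, IsDisc n f → f 0 = q →
      Laplacian.laplacian (fun ζ : ℂ => θ.pot p (f ζ) - θ.pot q (f ζ)) 0 = 0) ∧
    (∀ f : ℂ → Y, IsDisc n f → f 0 = q →
      Laplacian.laplacian (fun ζ : ℂ => Ω.pot p (f ζ) - Ω.pot q (f ζ)) 0 = 0) ∧
    ContMDiffAt 𝓘(ℝ, En n) 𝓘(ℝ, ℝ) ∞ ψ q ∧ ∀ f : ℂ → Y, IsDisc n f → f 0 = q →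
      δ * Ω.val f ≤ θ.val f + Laplacian.laplacian (fun ζ : ℂ => ψ (f ζ)) 0}, ?_, ?_⟩
  · filter_upwards [θ.smooth p, Ω.smooth p, θ.compat p, Ω.compat p, hSM] with q h1 h2 h3 h4 h5
    exact ⟨h1, h2, h3, h4, h5⟩
  · intro f hf
    refine mean_le (h := fun ζ => θ.pot p (f ζ) + ψ (f ζ) - δ * Ω.pot p (f ζ)) ?_ ?_
    · intro ζ hζ
      obtain ⟨h0, h1, h2, h3, h4, h5, h6⟩ := hf ζ hζ
      exact ((comp_real h0 h1).add (comp_real h0 h5)).sub
        (contDiffAt_const.mul (comp_real h0 h2))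
    · intro ζ hζ
      obtain ⟨h0, h1, h2, h3, h4, h5, h6⟩ := hf ζ hζ
      have hd := disc_shift h0
      have e0 : (fun ξ => f (ζ + ξ)) 0 = f ζ := by simp
      have key : ∀ Θ : Form n Y, ContMDiffAt 𝓘(ℝ, En n) 𝓘(ℝ, ℝ) ∞ (Θ.pot p) (f ζ) →
          (∀ g : ℂ → Y, IsDisc n g → g 0 = f ζ →
            Laplacian.laplacian (fun ξ : ℂ => Θ.pot p (g ξ) - Θ.pot (f ζ) (g ξ)) 0 = 0) →
          Laplacian.laplacian (fun ξ => Θ.pot p (f ξ)) ζ = Θ.val (fun ξ => f (ζ + ξ)) := by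
        intro Θ k1 k2
        have k3 := k2 _ hd e0
        have c1 : ContDiffAt ℝ 2 (fun ξ => Θ.pot p (f (ζ + ξ))) 0 :=
          comp_real hd (by simpa using k1)
        have c2 : ContDiffAt ℝ 2 (fun ξ => Θ.pot (f ζ) (f (ζ + ξ))) 0 :=
          comp_real hd (by simpa using (Θ.smooth (f ζ)).self_of_nhds)
        have k4 := c1.laplacian_sub c2
        have k5 : Laplacian.laplacian (fun ξ => Θ.pot p (f (ζ + ξ))) 0 =
            Laplacian.laplacian (fun ξ => Θ.pot (f ζ) (f (ζ + ξ))) 0 := by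
          have k6 : Laplacian.laplacian ((fun ξ => Θ.pot p (f (ζ + ξ))) -
            (fun ξ => Θ.pot (f ζ) (f (ζ + ξ)))) 0 = 0 := k3
          rw [k6] at k4
          linarith
        rw [← lap_shift (fun ξ => Θ.pot p (f ξ)) ζ, k5]
        unfold Form.val
        simp only [add_zero]
      have c1 := comp_real h0 h1
      have c2 := comp_real h0 h2
      have c5 := comp_real h0 h5
      have a1 := (c1.add c5).laplacian_sub (contDiffAt_const (c := δ) |>.mul c2)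
      have a2 := c1.laplacian_add c5
      have a3 := InnerProductSpace.laplacian_smul (x := ζ) δ c2
      have a4 : Laplacian.laplacian (fun ξ => θ.pot p (f ξ) + ψ (f ξ) - δ * Ω.pot p (f ξ)) ζ =
          Laplacian.laplacian (fun ξ => θ.pot p (f ξ)) ζ + Laplacian.laplacian (fun ξ => ψ (f ξ)) ζ -
            δ * Laplacian.laplacian (fun ξ => Ω.pot p (f ξ)) ζ := by
        have b1 : Laplacian.laplacian (fun ξ => θ.pot p (f ξ) + ψ (f ξ) - δ * Ω.pot p (f ξ)) ζ =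
            Laplacian.laplacian ((fun ξ => θ.pot p (f ξ)) + fun ξ => ψ (f ξ)) ζ -
            Laplacian.laplacian (δ • fun ξ => Ω.pot p (f ξ)) ζ := a1
        rw [b1, a2, a3]
        rfl
      show 0 ≤ Laplacian.laplacian (fun ξ => θ.pot p (f ξ) + ψ (f ξ) - δ * Ω.pot p (f ξ)) ζ
      rw [a4, key θ h1 h3, key Ω h2 h4, ← lap_shift (fun ξ => ψ (f ξ)) ζ]
      have := h6 _ hd e0
      linarith

end Pool.Agent.Y79.RB
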